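import Pool.Agent.OR.UB.Sum
import Pool.Agent.OR.A.Tree
import Pool.Agent.OR.Ori
import Pool.Agent.OR.R.Fin
import Pool.Agent.H63.VC3.Reduce

/-!
# Upper bounds for the colored `SU(n)` invariants of trees with arbitrary weights
-/

set_option autoImplicit false

namespace Pool.Agent.OR.UB

open Pool.Agent.AT (Tr)
open Pool.Agent.AT.SU (ie)
open Pool.Agent.AT.SU.OR (sn et JG4)
open Pool.Agent.H63.VC7 (inc)
open Pool.Agent.H63.VC11 (coloredSU)
open Pool.Agent.H63.VC3 (Dg bt)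
open Pool.Agent.S4 (ka q0 cst nn)
open Pool.Agent.S3 (Rf Rf_one_sub)
open Pool.Agent.H63.VC (S S_pos lob)
open Complex Filter Topology

theorem S_ge {M k : ℕ} (h : k < M) : ((M : ℝ)⁻¹) ^ k ≤ S M k := by
  have hM : (0 : ℝ) < M := by exact_mod_cast (by omega : 0 < M)
  unfold S
  calc ((M : ℝ)⁻¹) ^ k = ∏ _m ∈ Finset.Ico 1 (k + 1), (M : ℝ)⁻¹ := by
        rw [Finset.prod_const, Nat.card_Ico, Nat.add_sub_cancel]
    _ ≤ _ := by
        refine Finset.prod_le_prod (fun _ _ => by positivity) fun j hj => ?_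
        rw [Finset.mem_Ico] at hj
        have := Pool.Agent.H63.VC.sg_ge (M := M) (m := j) hj.1 (by omega)
        rwa [one_div] at this

theorem Dg_ge {n g M : ℕ} (hn : 2 ≤ n) (hg : 1 ≤ g) (hgn : g < n) (hM : n ≤ M) :
    ((M : ℝ)⁻¹) ^ (2 * n) ≤ Dg n g M := by
  have hM0 : (0 : ℝ) < M := by exact_mod_cast (by omega : 0 < M)
  have hM1 : (M : ℝ)⁻¹ ≤ 1 := inv_le_one_of_one_le₀ (by exact_mod_cast (by omega : 1 ≤ M))
  have h1 := S_ge (M := M) (k := g - 1) (by omega)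
  have h2 := S_ge (M := M) (k := n - g - 1) (by omega)
  have h3 := S_ge (M := M) (k := n - 2) (by omega)
  have p1 := S_pos (M := M) (k := g - 1) (by omega)
  have p2 := S_pos (M := M) (k := n - g - 1) (by omega)
  unfold Dg
  calc ((M : ℝ)⁻¹) ^ (2 * n) ≤ ((M : ℝ)⁻¹) ^ ((g - 1) + (n - g - 1) + (n - 2)) :=
        pow_le_pow_of_le_one (by positivity) hM1 (by omega)
    _ = ((M : ℝ)⁻¹) ^ (g - 1) * ((M : ℝ)⁻¹) ^ (n - g - 1) * ((M : ℝ)⁻¹) ^ (n - 2) := by
        rw [pow_add, pow_add]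
    _ ≤ _ := by gcongr

theorem Dg_le {n g M : ℕ} (hn : 2 ≤ n) (hg : 1 ≤ g) (hgn : g < n) :
    |Dg n g M| ≤ 2 ^ (2 * n) := by
  unfold Dg
  rw [abs_mul, abs_mul]
  calc |S M (g - 1)| * |S M (n - g - 1)| * |S M (n - 2)| ≤
      2 ^ (g - 1) * 2 ^ (n - g - 1) * 2 ^ (n - 2) := by
        gcongr
        · exact S_abs_le _ _
        · exact S_abs_le _ _
        · exact S_abs_le _ _
    _ = 2 ^ ((g - 1) + (n - g - 1) + (n - 2)) := by rw [pow_add, pow_add]
    _ ≤ _ := pow_le_pow_right₀ (by norm_num) (by omega)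

theorem norm_q0 (M : ℕ) : ‖q0 M‖ = 1 := by
  unfold q0
  have e : (Real.pi * I / (M : ℂ) : ℂ) = ((Real.pi / M : ℝ) : ℂ) * I := by
    push_cast
    ring
  rw [e, norm_exp_ofReal_mul_I]

theorem norm_ka (M n N : ℕ) (s : ℤ) : ‖ka (q0 M) n N ^ s‖ = 1 := by
  unfold ka
  rw [norm_zpow, norm_mul, norm_pow, norm_neg, norm_one, one_pow, norm_zpow, norm_q0, one_zpow,
    one_mul, one_zpow]

theorem norm_cst {n g M : ℕ} (hn : 2 ≤ n) (hg : 1 ≤ g) (hgn : g < n) (hM : n ≤ M) (P : Bool)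
    (b : ℤ) : ‖cst n g M P b‖ ≤ (M : ℝ) ^ (2 * n) := by
  have hM0 : (0 : ℝ) < M := by exact_mod_cast (by omega : 0 < M)
  have hD := Dg_ge hn hg hgn hM
  have hD0 : 0 < Dg n g M := lt_of_lt_of_le (by positivity) hD
  unfold cst
  rw [norm_mul]
  have e1 : ‖exp (b * (Real.pi * I * (bt (nn n P) - M / 4 - (bt (nn n P) : ℂ) ^ 2 / M)))‖ = 1 := by
    have e : (b * (Real.pi * I * (bt (nn n P) - M / 4 - (bt (nn n P) : ℂ) ^ 2 / M)) : ℂ) =
        ((b * (Real.pi * (bt (nn n P) - M / 4 - bt (nn n P) ^ 2 / M)) : ℝ) : ℂ) * I := by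
      push_cast
      ring
    rw [e, norm_exp_ofReal_mul_I]
  rw [e1, mul_one, norm_div, norm_neg, norm_pow, norm_neg, norm_one, one_pow, norm_mul, norm_mul,
    norm_ofNat, norm_real, norm_real, Real.norm_eq_abs, Real.norm_eq_abs,
    abs_of_pos Real.pi_pos, abs_of_pos hD0]
  rw [div_le_iff₀ (by positivity)]
  have h1 : 1 ≤ (M : ℝ) ^ (2 * n) * Dg n g M := by
    calc (1 : ℝ) = (M : ℝ) ^ (2 * n) * ((M : ℝ)⁻¹) ^ (2 * n) := by
          rw [← mul_pow, mul_inv_cancel₀ hM0.ne', one_pow]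
      _ ≤ _ := by gcongr
  have h2 := Real.pi_gt_three
  nlinarith

/-- The volume of the regular ideal octahedron. -/
theorem c8_eq : c8 = 8 * lob (Real.pi / 4) / (2 * Real.pi) := by
  have hpi := Real.pi_pos
  have k := Rf_one_sub ((3 / 4 : ℝ) : ℂ)
  rw [show (1 : ℂ) - ((3 / 4 : ℝ) : ℂ) = ((1 / 4 : ℝ) : ℂ) by push_cast; ring] at k
  have hz : Rf ((0 : ℝ) : ℂ) = 0 := by
    have := Pool.Agent.S3.Rf_zero_line 0
    rwa [ofReal_zero, zero_mul, add_zero, abs_zero, mul_zero, zero_div, neg_zero] at this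
  have e : Rf ((1 / 4 : ℝ) : ℂ) = ∫ t in (0 : ℝ)..(1 / 4), Pool.Agent.S3.Lg 0 t := by
    have e1 : Rf ((1 / 4 : ℝ) : ℂ) - Rf ((0 : ℝ) : ℂ) =
        ∫ t in (0 : ℝ)..(1 / 4), Pool.Agent.S3.Lg 0 t := by
      rw [Pool.Agent.S3.Rf_real_eq, Pool.Agent.S3.Rf_real_eq,
        intervalIntegral.integral_interval_sub_left] <;>
        exact Pool.Agent.S3.Lg_integrable _ _ _
    rw [← e1, hz, sub_zero]
  have e2 : ∫ t in (0 : ℝ)..(1 / 4), Pool.Agent.S3.Lg 0 t = -(lob (Real.pi / 4) / Real.pi) := by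
    have h1 : ∫ t in (0 : ℝ)..(1 / 4), Pool.Agent.S3.Lg 0 t =
        ∫ t in (0 : ℝ)..(1 / 4), (fun u => Real.log |2 * Real.sin u|) (Real.pi * t) := by
      refine intervalIntegral.integral_congr fun t _ => ?_
      exact Pool.Agent.S3.Lg_zero_eq t
    have h2 := intervalIntegral.integral_comp_mul_left (a := 0) (b := 1 / 4)
      (fun u => Real.log |2 * Real.sin u|) hpi.ne'
    rw [h1, h2, mul_zero, show Real.pi * (1 / 4) = Real.pi / 4 by ring, smul_eq_mul]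
    unfold lob
    field_simp
  rw [e, e2] at k
  unfold c8
  have k2 : Rf ((3 / 4 : ℝ) : ℂ) = lob (Real.pi / 4) / Real.pi := by linarith
  rw [k2]
  field_simp
  ring

/-- **Upper bound** for the growth of the colored `SU(n)` invariants of trees. -/
theorem tree_le {n g : ℕ} (hn : 2 ≤ n) (hg : 1 ≤ g) (hgn : g < n) : ∃ C : ℝ, 0 < C ∧ ∃ D : ℕ,
    ∀ (m : ℕ) (par : Fin m → Fin (m + 1)), (∀ j, par j ≤ j.castSucc) →
      ∀ (a : Fin (m + 1) → ℤ) (L : List Pool.Agent.H63.VC11.Piece),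
        IsOrientation (Pool.Agent.H63.VC10.diagram par a) L →
        ∃ J : ℕ → ℂ, (∀ N : ℕ, n ≤ N → Tendsto (fun q => coloredSU L n N q)
          (𝓝[≠] exp (Real.pi * I / (N + g))) (𝓝 (J N))) ∧
        ∀ N : ℕ, n ≤ N → ‖J N‖ ≤ (C * ((N : ℝ) + g) ^ D) ^ (m + 1) * (∏ i, (1 + |(a i : ℝ)|)) *
          Real.exp ((N + g) * (2 * m * c8)) := by
  obtain ⟨C, hC, hJ⟩ := JG4_le (h := min g (n - g)) hn (by omega) (by omega)
  refine ⟨2 ^ (2 * n) * Real.exp C, by positivity, 2 * n + ⌈C⌉₊, ?_⟩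
  intro m par hpar a L hL
  let _ : Tr m := ⟨par, hpar⟩
  obtain ⟨P, l, hA, rfl⟩ := ori par hpar a hL
  refine ⟨fun N => ka (q0 (N + g)) n N ^ (-∑ i, if P i then a i else 0) *
    ((∏ i, cst n g (N + g) (P i) (a i)) *
      ((Dg n g (N + g) : ℂ) / ((N + g : ℕ) : ℂ) ^ 2) ^ m *
      JG4 P (fun i => (a i : ℝ) / 2) n (min g (n - g)) (N + g)), ?_, ?_⟩
  · intro N hN
    refine lim_of_mixT P a hA.adj (fun i hi => ?_) _ n g N hn hg hgn hN ?_
    · have h1 := hA.even i hi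
      have h2 : a i - (sn P i : ℤ) = a i + (snT par P i : ℤ) - 2 * (snT par P i : ℤ) := by
        have : (sn P i : ℤ) = (snT par P i : ℤ) := rfl
        rw [this]
        ring
      rw [h2]
      exact dvd_sub h1.two_dvd (dvd_mul_right _ _)
    · intro a' ha' q hq
      exact coloredSU_odiag hq hn ha' par hpar P a hA l
  · intro N hN
    have hM1 : (1 : ℝ) ≤ (N : ℝ) + g := by
      have : (1 : ℝ) ≤ g := by exact_mod_cast hg
      have : (0 : ℝ) ≤ N := by positivity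
      linarith
    have hM0 : (0 : ℝ) < (N : ℝ) + g := by linarith
    have h1 := hJ m P (fun i => (a i : ℝ) / 2) (N + g) (by omega)
    push_cast at h1
    rw [norm_mul, norm_ka, one_mul, norm_mul, norm_mul, _root_.norm_prod, norm_pow]
    have h2 : ∏ i, ‖cst n g (N + g) (P i) (a i)‖ ≤ (((N : ℝ) + g) ^ (2 * n)) ^ (m + 1) := by
      calc _ ≤ ∏ _i : Fin (m + 1), ((N : ℝ) + g) ^ (2 * n) := by
            refine Finset.prod_le_prod (fun _ _ => norm_nonneg _) fun i _ => ?_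
            have := norm_cst hn hg hgn (M := N + g) (by omega) (P i) (a i)
            push_cast at this
            exact this
        _ = _ := by rw [Finset.prod_const, Finset.card_univ, Fintype.card_fin]
    have h3 : ‖((Dg n g (N + g) : ℂ) / ((N + g : ℕ) : ℂ) ^ 2 : ℂ)‖ ≤ 2 ^ (2 * n) := by
      rw [norm_div, norm_real, norm_pow, norm_natCast, Real.norm_eq_abs]
      rw [div_le_iff₀ (by push_cast; positivity)]
      push_cast
      have h4 := Dg_le (M := N + g) hn hg hgn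
      have h5 : (1 : ℝ) ≤ ((N : ℝ) + g) ^ 2 := one_le_pow₀ hM1
      calc |Dg n g (N + g)| ≤ 2 ^ (2 * n) * 1 := by linarith
        _ ≤ _ := by gcongr
    have h4 : ‖((Dg n g (N + g) : ℂ) / ((N + g : ℕ) : ℂ) ^ 2 : ℂ)‖ ^ m ≤
        (2 ^ (2 * n)) ^ (m + 1) := by
      calc _ ≤ ((2 : ℝ) ^ (2 * n)) ^ m := by gcongr
        _ ≤ _ := pow_le_pow_right₀ (one_le_pow₀ (by norm_num)) (by omega)
    have h5 : Real.exp (C * (1 + Real.log ((N : ℝ) + g)) * (m + 1)) ≤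
        (Real.exp C * ((N : ℝ) + g) ^ ⌈C⌉₊) ^ (m + 1) := by
      rw [pow_exp hM0, ← Real.exp_add, ← Real.exp_nat_mul]
      apply Real.exp_le_exp.2
      have hl : 0 ≤ Real.log ((N : ℝ) + g) := Real.log_nonneg hM1
      have hc : C * Real.log ((N : ℝ) + g) ≤ ⌈C⌉₊ * Real.log ((N : ℝ) + g) := by
        gcongr
        exact Nat.le_ceil C
      have hm0 : (0 : ℝ) ≤ (m : ℝ) + 1 := by positivity
      push_cast
      nlinarith
    have h6 : ∏ i, (1 + |(a i : ℝ) / 2|) ≤ ∏ i, (1 + |(a i : ℝ)|) := by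
      refine Finset.prod_le_prod (fun _ _ => by positivity) fun i _ => ?_
      rw [abs_div, abs_two]
      have := abs_nonneg (a i : ℝ)
      linarith
    calc (∏ i, ‖cst n g (N + g) (P i) (a i)‖) *
        ‖((Dg n g (N + g) : ℂ) / ((N + g : ℕ) : ℂ) ^ 2 : ℂ)‖ ^ m *
        ‖JG4 P (fun i => (a i : ℝ) / 2) n (min g (n - g)) (N + g)‖ ≤
        (((N : ℝ) + g) ^ (2 * n)) ^ (m + 1) * (2 ^ (2 * n)) ^ (m + 1) *
        ((Real.exp C * ((N : ℝ) + g) ^ ⌈C⌉₊) ^ (m + 1) * (∏ i, (1 + |(a i : ℝ)|)) *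
        Real.exp (2 * m * ((N + g) * c8))) := by
          gcongr
          refine h1.trans ?_
          gcongr
      _ = _ := by
        rw [← mul_pow, show 2 * (m : ℝ) * (((N : ℝ) + g) * c8) = (N + g) * (2 * m * c8) by ring,
          ← mul_assoc, ← mul_assoc, ← mul_pow]
        congr 3
        rw [pow_add]
        ring

end Pool.Agent.OR.UB
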