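import Pool.Agent.H25.RK.DGI
import Pool.Agent.H25.RK.DGf
import Pool.Agent.H63.GO.MTaylor
import Pool.Agent.H63.VC.Cross
import Pool.Agent.H63.VC.EndB
import Pool.Agent.H63.VC.Riem
import Pool.Agent.H63.VC.SlowL
import Pool.Agent.H63.VC.SlowU
import Pool.Agent.H63.VC11.Brac11
import Pool.Agent.H63.VC12.Path12
import Pool.Agent.H63.VC4.Checks
import Pool.Agent.H63.VC4.GaussN
import Pool.Agent.H63.VC4.KBN
import Pool.Agent.H63.VC4.LaplaceN
import Pool.Agent.H63.VC4.UpperN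
import Pool.Agent.H63.VC5.Defs
import Pool.Agent.H63.VC6.LocU
import Pool.Agent.H63.VC6.SlotU
import Pool.Agent.S3.Asm.Def
import Pool.Agent.S3.E.GeoC
import Pool.Agent.S3.LowE
import Pool.Agent.S4.G.FB
import Pool.Agent.S4.G.Int

/-!
# Upper bounds for trees: the factor of a slot

The factor of a slot, with half of the weight of the edge, is at most `exp (M v₈ / 2 π)`, up to a power
of `M`, on the strip `|im v| ≤ 1 / M`.
-/

set_option autoImplicit false

namespace Pool.Agent.OR.UB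

open Pool.Agent.H63.VC hiding ext
open Pool.Agent.H63.VC3 Pool.Agent.H25.RK Pool.Agent.S3
open Pool.Agent.S4
open Complex Filter Topology MeasureTheory

/-- The growth of half an edge, `v₈ / 2 π`. -/
noncomputable def c8 : ℝ := 4 * Rf ((3 / 4 : ℝ) : ℂ)

theorem c8_pos : 0 < c8 := by
  have := Rf34
  unfold c8
  linarith

private theorem Lg_shift_le {s : ℝ} (h0 : 0 ≤ s) (h1 : s ≤ 1 / 4) : Lg 0 s ≤ Lg 0 (s + 1 / 2) := by
  have hpi := Real.pi_pos
  rw [Lg_zero_eq, Lg_zero_eq]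
  have e : Real.sin (Real.pi * (s + 1 / 2)) = Real.cos (Real.pi * s) := by
    rw [← Real.sin_add_pi_div_two]
    congr 1
    ring
  rw [e]
  have s0 : 0 ≤ Real.sin (Real.pi * s) :=
    Real.sin_nonneg_of_nonneg_of_le_pi (by positivity) (by nlinarith)
  have k : Real.sin (Real.pi * s) ≤ Real.cos (Real.pi * s) := by
    have h2 : Real.pi * s ≤ Real.pi / 4 := by nlinarith
    have h3 : Real.sin (Real.pi * s) ≤ Real.sin (Real.pi / 4) :=
      Real.sin_le_sin_of_le_of_le_pi_div_two (by nlinarith) (by linarith) h2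
    have h4 : Real.cos (Real.pi / 4) ≤ Real.cos (Real.pi * s) :=
      Real.cos_le_cos_of_nonneg_of_le_pi (by positivity) (by linarith) h2
    rw [Real.sin_pi_div_four] at h3
    rw [Real.cos_pi_div_four] at h4
    linarith
  rcases s0.eq_or_lt with h | h
  · have h5 : s = 0 := by
      by_contra hs
      have : 0 < s := lt_of_le_of_ne h0 (Ne.symm hs)
      have := Real.sin_pos_of_pos_of_lt_pi (by positivity : 0 < Real.pi * s) (by nlinarith)
      linarith
    subst h5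
    simp only [mul_zero, Real.sin_zero, abs_zero, Real.log_zero, Real.cos_zero, mul_one]
    apply Real.log_nonneg
    norm_num
  · apply Real.log_le_log (by positivity)
    rw [abs_of_nonneg (by positivity), abs_of_nonneg (by linarith)]
    linarith

private theorem Lg_le_shift {s : ℝ} (h0 : 1 / 4 ≤ s) (h1 : s ≤ 1 / 2) :
    Lg 0 (s + 1 / 2) ≤ Lg 0 s := by
  have h := Lg_shift_le (s := 1 / 2 - s) (by linarith) (by linarith)
  have e1 : Lg 0 (1 / 2 - s) = Lg 0 (s + 1 / 2) := by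
    have k1 := Lg_neg 0 (s - 1 / 2)
    have k2 := Lg_add_one 0 (s - 1 / 2)
    rw [show -(s - 1 / 2) = 1 / 2 - s by ring] at k1
    rw [show s - 1 / 2 + 1 = s + 1 / 2 by ring] at k2
    rw [k1, k2]
  have e2 : Lg 0 (1 / 2 - s + 1 / 2) = Lg 0 s := by
    have k1 := Lg_neg 0 s
    have k2 := Lg_add_one 0 (-s)
    rw [show 1 / 2 - s + 1 / 2 = -s + 1 by ring, k2, k1]
  rw [e1, e2] at h
  exact h

/-- The growth of the slot `v = 0`. -/
theorem se_zero_le {t : ℝ} (h0 : 0 ≤ t) (h1 : t ≤ 1 / 2) : se (t : ℂ) (.op 0) ≤ c8 := by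
  have e1 : se (t : ℂ) (.op 0) = 2 * (Rf (((t + 1 / 2 : ℝ) : ℂ)) - Rf (t : ℂ)) := by
    unfold se
    simp only [sub_zero, add_zero]
    push_cast
    ring
  have e2 : c8 = 2 * (Rf ((3 / 4 : ℝ) : ℂ) - Rf ((1 / 4 : ℝ) : ℂ)) := by
    have k := Rf_one_sub ((3 / 4 : ℝ) : ℂ)
    rw [show (1 : ℂ) - ((3 / 4 : ℝ) : ℂ) = ((1 / 4 : ℝ) : ℂ) by push_cast; ring] at k
    rw [k, c8]
    ring
  have e3 : ∀ a b : ℝ, Rf (b : ℂ) - Rf (a : ℂ) = ∫ s in a..b, Lg 0 s := by
    intro a b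
    rw [Rf_real_eq, Rf_real_eq, intervalIntegral.integral_interval_sub_left] <;>
      exact Lg_integrable _ _ _
  have e4 : (Rf ((3 / 4 : ℝ) : ℂ) - Rf ((1 / 4 : ℝ) : ℂ)) -
      (Rf (((t + 1 / 2 : ℝ) : ℂ)) - Rf (t : ℂ)) =
      ∫ s in t..(1 / 4 : ℝ), (Lg 0 (s + 1 / 2) - Lg 0 s) := by
    rw [intervalIntegral.integral_sub]
    · rw [intervalIntegral.integral_comp_add_right (fun s => Lg 0 s) (1 / 2), ← e3, ← e3]
      norm_num
      ring
    · have := (Lg_integrable 0 (t + 1 / 2) (1 / 4 + 1 / 2)).comp_add_right (1 / 2)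
      simpa using this
    · exact Lg_integrable _ _ _
  have e5 : 0 ≤ ∫ s in t..(1 / 4 : ℝ), (Lg 0 (s + 1 / 2) - Lg 0 s) := by
    rcases le_total t (1 / 4) with h | h
    · apply intervalIntegral.integral_nonneg h
      intro s hs
      have := Lg_shift_le (h0.trans hs.1) hs.2
      linarith
    · rw [intervalIntegral.integral_symm, ← intervalIntegral.integral_neg]
      apply intervalIntegral.integral_nonneg h
      intro s hs
      have := Lg_le_shift hs.1 (hs.2.trans h1)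
      linarith
  rw [e1, e2]
  linarith

/-- The growth of a real slot. -/
theorem se_real_le {a y : ℝ} (ha : |a| ≤ 1 / 2) (h0 : -(1 / 2) ≤ y) (h1 : y ≤ 1 / 2) :
    se (y : ℂ) (.op (a : ℂ)) ≤ c8 := by
  rcases le_total 0 y with h | h
  · exact (low_E1b ha (y := (y : ℂ)) (by simpa using h) (by simpa using h1)).trans
      (se_zero_le h h1)
  · exact (low_E1a ha h0 h).trans c8_pos.le

/-- The growth of a slot near the real line. -/
theorem se_strip_le {y : ℝ} {v : ℂ} (hv : |v.re| ≤ 1 / 2) (h0 : -(1 / 2) ≤ y) (h1 : y ≤ 1 / 2) :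
    se (y : ℂ) (.op v) ≤ c8 + 3 * Real.pi * |v.im| := by
  obtain ⟨a0, a1⟩ := abs_le.1 hv
  have k1 := se_real_le hv h0 h1
  have k2 := Rf_lip11 (a := y - v.re) (by linarith) (by linarith) (-v.im) 0
  have k3 := Rf_lip11 (a := y + v.re) (by linarith) (by linarith) v.im 0
  have e1 : ((y : ℂ) - v) = ((y - v.re : ℝ) : ℂ) + ((-v.im : ℝ) : ℂ) * I := by
    apply Complex.ext <;> simp
  have e2 : ((y : ℂ) + v) = ((y + v.re : ℝ) : ℂ) + ((v.im : ℝ) : ℂ) * I := by
    apply Complex.ext <;> simp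
  have e3 : ((y : ℂ) - (v.re : ℂ)) = ((y - v.re : ℝ) : ℂ) + ((0 : ℝ) : ℂ) * I := by
    apply Complex.ext <;> simp
  have e4 : ((y : ℂ) + (v.re : ℂ)) = ((y + v.re : ℝ) : ℂ) + ((0 : ℝ) : ℂ) * I := by
    apply Complex.ext <;> simp
  unfold se at k1 ⊢
  simp only at k1 ⊢
  rw [e3, e4] at k1
  rw [e1, e2]
  rw [sub_zero, abs_neg] at k2
  rw [sub_zero] at k3
  have k4 := (abs_le.1 k2).1
  have k5 := (abs_le.1 k3).1
  linarith

/-! ### The centered product -/

private theorem sinh_abs_sq (x : ℝ) : Real.sinh |x| ^ 2 = Real.sinh x ^ 2 := by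
  rcases abs_choice x with h | h <;> rw [h]
  rw [Real.sinh_neg]
  ring

theorem norm_cos_ge (z : ℂ) : Real.sinh |z.im| ≤ ‖cos z‖ := by
  have h := Pool.Agent.S3.E.norm_cos_sq z
  have h2 : Real.sinh |z.im| ^ 2 ≤ ‖cos z‖ ^ 2 := by
    rw [h, sinh_abs_sq]
    unfold Pool.Agent.S3.E.k2 Pool.Agent.S3.E.cc Pool.Agent.S3.E.gg
    have e1 := Real.cosh_two_mul z.im
    have e2 := Real.cos_two_mul z.re
    have e3 := Real.cosh_sq z.im
    rw [e1, e2]
    nlinarith [sq_nonneg (Real.cos z.re)]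
  exact abs_le_of_sq_le_sq' h2 (norm_nonneg _) |>.2

theorem norm_cos_le (z : ℂ) : ‖cos z‖ ≤ Real.cosh z.im := by
  have h := Pool.Agent.S3.E.norm_cos_sq z
  have h2 : ‖cos z‖ ^ 2 ≤ Real.cosh z.im ^ 2 := by
    rw [h]
    unfold Pool.Agent.S3.E.k2 Pool.Agent.S3.E.cc Pool.Agent.S3.E.gg
    have e1 := Real.cosh_two_mul z.im
    have e2 := Real.cos_two_mul z.re
    have e3 := Real.cosh_sq z.im
    have e4 := Real.cos_sq_add_sin_sq z.re
    rw [e1, e2]
    nlinarith [sq_nonneg (Real.sin z.re)]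
  exact abs_le_of_sq_le_sq' h2 (Real.cosh_pos _).le |>.2

private theorem im_pi_add (v : ℂ) (x : ℝ) : ((Real.pi : ℂ) * (v + (x : ℂ))).im = Real.pi * v.im := by
  simp

theorem Wd_ge (M d : ℕ) (v : ℂ) : (2 * Real.sinh (Real.pi * |v.im|)) ^ d ≤ ‖Wd M d v‖ := by
  unfold Wd
  rw [_root_.norm_prod]
  calc (2 * Real.sinh (Real.pi * |v.im|)) ^ d
      = ∏ _j ∈ Finset.range d, (2 * Real.sinh (Real.pi * |v.im|)) := by
        rw [Finset.prod_const, Finset.card_range]
    _ ≤ _ := by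
        refine Finset.prod_le_prod (fun j _ => mul_nonneg (by norm_num)
          (Real.sinh_nonneg_iff.2 (by positivity))) (fun j _ => ?_)
        have e : ((j : ℂ) + 1 / 2 - d / 2) / M = ((((j : ℝ) + 1 / 2 - d / 2) / M : ℝ) : ℂ) := by
          push_cast
          ring
        rw [e, norm_mul, norm_ofNat]
        have h := norm_cos_ge ((Real.pi : ℂ) * (v + ((((j : ℝ) + 1 / 2 - d / 2) / M : ℝ) : ℂ)))
        rw [im_pi_add, abs_mul, abs_of_pos Real.pi_pos] at h
        linarith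

theorem Wd_le (M d : ℕ) (v : ℂ) : ‖Wd M d v‖ ≤ (2 * Real.cosh (Real.pi * v.im)) ^ d := by
  unfold Wd
  rw [_root_.norm_prod]
  calc _ ≤ ∏ _j ∈ Finset.range d, (2 * Real.cosh (Real.pi * v.im)) := by
        refine Finset.prod_le_prod (fun j _ => norm_nonneg _) (fun j _ => ?_)
        have e : ((j : ℂ) + 1 / 2 - d / 2) / M = ((((j : ℝ) + 1 / 2 - d / 2) / M : ℝ) : ℂ) := by
          push_cast
          ring
        rw [e, norm_mul, norm_ofNat]
        have h := norm_cos_le ((Real.pi : ℂ) * (v + ((((j : ℝ) + 1 / 2 - d / 2) / M : ℝ) : ℂ)))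
        rw [im_pi_add] at h
        linarith
    _ = _ := by rw [Finset.prod_const, Finset.card_range]

/-! ### The factor of a slot -/

theorem q4_add_one (M d t : ℕ) (v : ℂ) : q4 M d t (v + 1) = q4 M d t v := by
  unfold q4
  congr 1
  refine Finset.prod_congr rfl fun i _ => ?_
  have e1 : (Real.pi : ℂ) * (v + 1 + ((i : ℂ) + (d + 1) / 2) / M) =
      Real.pi * (v + ((i : ℂ) + (d + 1) / 2) / M) + Real.pi := by ring
  have e2 : (Real.pi : ℂ) * (v + 1 - ((i : ℂ) + (d + 1) / 2) / M) =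
      Real.pi * (v - ((i : ℂ) + (d + 1) / 2) / M) + Real.pi := by ring
  rw [e1, e2, cos_add_pi, cos_add_pi]
  ring

theorem q4_diff (M d t : ℕ) : Differentiable ℂ (q4 M d t) := by
  unfold q4
  refine Differentiable.const_mul (Differentiable.fun_finset_prod fun i _ => ?_) _
  fun_prop

theorem q4_crude {M : ℕ} (hM : 1 ≤ M) (d t : ℕ) (v : ℂ) :
    ‖q4 M d t v‖ ≤ (4 * Real.cosh (Real.pi * v.im) ^ 2) ^ t := by
  unfold q4
  rw [norm_mul, _root_.norm_prod]
  have h1 : ‖(1 / M : ℂ)‖ ≤ 1 := by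
    rw [norm_div, norm_one, norm_natCast]
    have : (1 : ℝ) ≤ M := by exact_mod_cast hM
    rw [div_le_one (by linarith)]
    exact this
  have h2 : ∏ i ∈ Finset.range t, ‖(4 * (cos (Real.pi * (v + ((i : ℂ) + (d + 1) / 2) / M)) *
      cos (Real.pi * (v - ((i : ℂ) + (d + 1) / 2) / M))) : ℂ)‖ ≤
      (4 * Real.cosh (Real.pi * v.im) ^ 2) ^ t := by
    calc _ ≤ ∏ _i ∈ Finset.range t, (4 * Real.cosh (Real.pi * v.im) ^ 2) := by
          refine Finset.prod_le_prod (fun j _ => norm_nonneg _) (fun i _ => ?_)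
          have e : ((i : ℂ) + (d + 1) / 2) / M = ((((i : ℝ) + (d + 1) / 2) / M : ℝ) : ℂ) := by
            push_cast
            ring
          have e' : v - ((i : ℂ) + (d + 1) / 2) / M =
              v + ((-(((i : ℝ) + (d + 1) / 2) / M) : ℝ) : ℂ) := by
            push_cast
            ring
          rw [e', e, norm_mul, norm_mul, norm_ofNat]
          have k1 := norm_cos_le ((Real.pi : ℂ) * (v + ((((i : ℝ) + (d + 1) / 2) / M : ℝ) : ℂ)))
          have k2 := norm_cos_le ((Real.pi : ℂ) *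
            (v + ((-(((i : ℝ) + (d + 1) / 2) / M) : ℝ) : ℂ)))
          rw [im_pi_add] at k1 k2
          have k3 := mul_le_mul k1 k2 (norm_nonneg _) (Real.cosh_pos _).le
          have k4 : Real.cosh (Real.pi * v.im) * Real.cosh (Real.pi * v.im) =
            Real.cosh (Real.pi * v.im) ^ 2 := by ring
          linarith
      _ = _ := by rw [Finset.prod_const, Finset.card_range]
  have h3 : 0 ≤ (4 * Real.cosh (Real.pi * v.im) ^ 2) ^ t := by positivity
  calc _ ≤ 1 * (4 * Real.cosh (Real.pi * v.im) ^ 2) ^ t :=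
        mul_le_mul h1 h2 (Finset.prod_nonneg fun _ _ => norm_nonneg _) zero_le_one
    _ = _ := one_mul _

/-- The maximum of a bounded function on a strip. -/
theorem strip_max {f : ℂ → ℂ} (hf : Differentiable ℂ f) {η B K : ℝ} (hη : 0 < η)
    (hK : ∀ z : ℂ, |z.im| ≤ η → ‖f z‖ ≤ K) (hB : ∀ z : ℂ, |z.im| = η → ‖f z‖ ≤ B) {z : ℂ}
    (hz : |z.im| ≤ η) : ‖f z‖ ≤ B := by
  refine PhragmenLindelof.horizontal_strip (a := -η) (b := η) hf.diffContOnCl ?_ ?_ ?_
    (abs_le.1 hz).1 (abs_le.1 hz).2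
  · refine ⟨0, div_pos Real.pi_pos (by linarith), 0, ?_⟩
    refine Asymptotics.IsBigO.of_bound K ?_
    rw [eventually_inf_principal]
    refine Eventually.of_forall fun w hw => ?_
    have h1 : |w.im| ≤ η := abs_le.2 ⟨hw.1.le, hw.2.le⟩
    have h2 := hK w h1
    simpa using h2
  · intro w hw
    exact hB w (by rw [hw, abs_neg, abs_of_pos hη])
  · intro w hw
    exact hB w (by rw [hw, abs_of_pos hη])

variable {n h : ℕ}

private theorem q4_line (hn : 2 ≤ n) (hh : 1 ≤ h) (hh' : 2 * h ≤ n) (P : Bool) : ∃ C : ℝ, 0 < C ∧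
    ∀ᶠ M : ℕ in atTop, ∀ κ : ℕ, n - 2 ≤ κ → κ < M → ∀ v : ℂ, |v.im| ≤ 1 / M →
    Real.exp (M * (2 * Rf (((yk 2 M κ : ℝ) : ℂ) + 1 / 2))) * ‖q4 M (dd n h P) (M - 1 - κ) v‖ ≤
      Real.exp (C * (1 + Real.log M)) * Real.exp (M * c8) := by
  obtain ⟨C, hC, hb⟩ := sC4_bound' hn hh hh' P
  set d := dd n h P with hd
  refine ⟨d + 2 * C + 3 * Real.pi, by positivity, ?_⟩
  filter_upwards [hb, eventually_ge_atTop 1] with M hb hM κ h0 h1
  have hM0 : (0 : ℝ) < M := by exact_mod_cast hM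
  have hM1 : (1 : ℝ) ≤ M := by exact_mod_cast hM
  have hlM : 0 ≤ Real.log M := Real.log_natCast_nonneg M
  set E := Real.exp (M * (2 * Rf (((yk 2 M κ : ℝ) : ℂ) + 1 / 2))) with hE
  have hE0 : 0 < E := Real.exp_pos _
  have hy0 : -1 / 2 + ((n : ℝ) - 1) / M ≤ yk 2 M κ := by
    rw [yk_two]
    have : (n : ℝ) ≤ κ + 2 := by exact_mod_cast (by omega : n ≤ κ + 2)
    have h2 : ((n : ℝ) - 1) / M ≤ (κ + 1) / M := by
      gcongr
      linarith
    linarith
  have hy1 : yk 2 M κ ≤ 1 / 2 := by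
    rw [yk_two]
    have : (κ : ℝ) + 1 ≤ M := by exact_mod_cast h1
    have h2 : ((κ : ℝ) + 1) / M ≤ 1 := by
      rw [div_le_one hM0]
      exact this
    linarith
  have hy2 : -(1 / 2) ≤ yk 2 M κ := by
    rw [yk_two]
    have : 0 ≤ ((κ : ℝ) + 1) / M := by positivity
    linarith
  -- on the boundary of the strip, in one period
  have key1 : ∀ v : ℂ, |v.im| = 1 / M → |v.re| ≤ 1 / 2 →
      E * ‖q4 M d (M - 1 - κ) v‖ ≤
        Real.exp ((d + 2 * C + 3 * Real.pi) * (1 + Real.log M)) * Real.exp (M * c8) := by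
    intro v hv hr
    have k1 := hb (.op v) ((yk 2 M κ : ℝ) : ℂ) hr (by simpa using hy0) (by simpa using hy1)
    have k2 := Ws_sk4 hn hh hh' P h0 h1 (σ := .op v) hr
    rw [← k2] at k1
    change E * ‖Wd M d v * q4 M d (M - 1 - κ) v‖ ≤ _ at k1
    rw [norm_mul] at k1
    have k3 := Wd_ge M d v
    rw [hv] at k3
    have k4 : ((M : ℝ)⁻¹) ^ d ≤ ‖Wd M d v‖ := by
      refine le_trans (pow_le_pow_left₀ (by positivity) ?_ d) k3
      have h5 : Real.pi * (1 / M) ≤ Real.sinh (Real.pi * (1 / M)) :=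
        Real.self_le_sinh_iff.2 (by positivity)
      have h6 : (M : ℝ)⁻¹ ≤ Real.pi * (1 / M) := by
        rw [one_div]
        have := Real.pi_gt_three
        have : (0 : ℝ) < (M : ℝ)⁻¹ := by positivity
        nlinarith
      have h7 : 0 ≤ Real.sinh (Real.pi * (1 / M)) := by linarith [inv_pos.2 hM0]
      linarith
    have k5 := se_strip_le hr hy2 hy1
    rw [hv] at k5
    have e1 : Sl.ht (.op v) = 1 / M := hv
    rw [e1, ofReal_im, abs_zero, add_zero] at k1
    have hq : 0 ≤ ‖q4 M d (M - 1 - κ) v‖ := norm_nonneg _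
    have k6 : E * ‖q4 M d (M - 1 - κ) v‖ ≤ (M : ℝ) ^ d *
        (E * (‖Wd M d v‖ * ‖q4 M d (M - 1 - κ) v‖)) := by
      have h8 : 1 ≤ (M : ℝ) ^ d * ‖Wd M d v‖ := by
        calc (1 : ℝ) = (M : ℝ) ^ d * ((M : ℝ)⁻¹) ^ d := by
              rw [← mul_pow, mul_inv_cancel₀ hM0.ne', one_pow]
          _ ≤ _ := by gcongr
      calc E * ‖q4 M d (M - 1 - κ) v‖ = 1 * (E * ‖q4 M d (M - 1 - κ) v‖) := by ring
        _ ≤ ((M : ℝ) ^ d * ‖Wd M d v‖) * (E * ‖q4 M d (M - 1 - κ) v‖) := by gcongr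
        _ = _ := by ring
    refine k6.trans ((mul_le_mul_of_nonneg_left k1 (by positivity)).trans ?_)
    have e2 : (M : ℝ) ^ d = Real.exp (d * Real.log M) := by
      rw [mul_comm, Real.exp_mul, Real.exp_log hM0, Real.rpow_natCast]
    rw [e2, ← Real.exp_add, ← Real.exp_add, ← Real.exp_add]
    apply Real.exp_le_exp.2
    have h9 : (M : ℝ) * se ((yk 2 M κ : ℝ) : ℂ) (.op v) ≤ M * c8 + 3 * Real.pi := by
      calc _ ≤ (M : ℝ) * (c8 + 3 * Real.pi * (1 / M)) := by gcongr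
        _ = _ := by
          field_simp
    have h10 : C * (1 + Real.log M + 1 / M) ≤ 2 * C * (1 + Real.log M) := by
      have : 1 / (M : ℝ) ≤ 1 := by
        rw [div_le_one hM0]
        exact hM1
      nlinarith
    have h11 : 3 * Real.pi ≤ 3 * Real.pi * (1 + Real.log M) := by
      have := Real.pi_pos
      nlinarith
    have h12 : (d : ℝ) * Real.log M ≤ d * (1 + Real.log M) := by
      have : (0 : ℝ) ≤ d := by positivity
      nlinarith
    nlinarith
  -- on the boundary of the strip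
  have hper : Function.Periodic (q4 M d (M - 1 - κ)) 1 := q4_add_one M d (M - 1 - κ)
  have key2 : ∀ v : ℂ, |v.im| = 1 / M → E * ‖q4 M d (M - 1 - κ) v‖ ≤
      Real.exp ((d + 2 * C + 3 * Real.pi) * (1 + Real.log M)) * Real.exp (M * c8) := by
    intro v hv
    have e1 : q4 M d (M - 1 - κ) v = q4 M d (M - 1 - κ) (v - ((round v.re : ℤ) : ℂ)) := by
      have := hper.sub_zsmul_eq (x := v) (round v.re)
      rw [zsmul_one] at this
      exact this.symm
    rw [e1]
    refine key1 _ (by simpa using hv) ?_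
    have h2 := abs_sub_round v.re
    simpa using h2
  intro v hv
  have h5 := strip_max (f := fun v => (E : ℂ) * q4 M d (M - 1 - κ) v)
    ((q4_diff M d (M - 1 - κ)).const_mul _) (η := 1 / M)
    (B := Real.exp ((d + 2 * C + 3 * Real.pi) * (1 + Real.log M)) * Real.exp (M * c8))
    (K := E * (4 * Real.cosh Real.pi ^ 2) ^ (M - 1 - κ)) (by positivity) ?_ ?_ hv
  · simpa only [norm_mul, norm_real, Real.norm_eq_abs, abs_of_pos hE0] using h5
  · intro z hz
    rw [norm_mul, norm_real, Real.norm_eq_abs, abs_of_pos hE0]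
    gcongr
    refine (q4_crude hM d _ z).trans ?_
    have h6 : Real.cosh (Real.pi * z.im) ≤ Real.cosh Real.pi := by
      rw [Real.cosh_le_cosh, abs_mul, abs_of_pos Real.pi_pos]
      have : |z.im| ≤ 1 := hz.trans (by
        rw [div_le_one hM0]
        exact hM1)
      nlinarith [Real.pi_pos]
    have h7 := (Real.cosh_pos (Real.pi * z.im)).le
    gcongr
  · intro z hz
    rw [norm_mul, norm_real, Real.norm_eq_abs, abs_of_pos hE0]
    exact key2 z hz

/-- The weight of an edge and the factors of its slots. -/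
theorem slot_bound (hn : 2 ≤ n) (hh : 1 ≤ h) (hh' : 2 * h ≤ n) : ∃ C : ℝ, 0 < C ∧
    ∀ᶠ M : ℕ in atTop, ∀ κ : ℕ, n - 2 ≤ κ → κ < M → ∃ B : ℝ, 0 ≤ B ∧
      (∀ (P : Bool) (v : ℂ), |v.im| ≤ 1 / M → ‖q4 M (dd n h P) (M - 1 - κ) v‖ ≤ B) ∧
      ∀ e : Bool, |w4 n h e M (κ - (n - 2))| * B ^ 2 ≤
        Real.exp (C * (1 + Real.log M)) * Real.exp (2 * (M * c8)) := by
  obtain ⟨C0, hC0, b0⟩ := q4_line hn hh hh' false
  obtain ⟨C1, hC1, b1⟩ := q4_line hn hh hh' true
  obtain ⟨C2, hC2, b2⟩ := w4C_bound' hn hh hh' false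
  obtain ⟨C3, hC3, b3⟩ := w4C_bound' hn hh hh' true
  refine ⟨2 * (C0 + C1) + (C2 + C3), by positivity, ?_⟩
  filter_upwards [b0, b1, b2, b3, eventually_ge_atTop 1] with M b0 b1 b2 b3 hM κ h0 h1
  have hM0 : (0 : ℝ) < M := by exact_mod_cast hM
  have hlM : 0 ≤ Real.log M := Real.log_natCast_nonneg M
  set R := Rf (((yk 2 M κ : ℝ) : ℂ) + 1 / 2) with hR
  have hy0 : -1 / 2 + ((n : ℝ) - 1) / M ≤ yk 2 M κ := by
    rw [yk_two]
    have : (n : ℝ) ≤ κ + 2 := by exact_mod_cast (by omega : n ≤ κ + 2)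
    have h2 : ((n : ℝ) - 1) / M ≤ (κ + 1) / M := by
      gcongr
      linarith
    linarith
  have hy1 : yk 2 M κ ≤ 1 / 2 := by
    rw [yk_two]
    have : (κ : ℝ) + 1 ≤ M := by exact_mod_cast h1
    have h2 : ((κ : ℝ) + 1) / M ≤ 1 := by
      rw [div_le_one hM0]
      exact this
    linarith
  refine ⟨Real.exp ((C0 + C1) * (1 + Real.log M) + M * c8 - M * (2 * R)), (Real.exp_pos _).le,
    ?_, ?_⟩
  · intro P v hv
    have e : Real.exp ((C0 + C1) * (1 + Real.log M) + M * c8 - M * (2 * R)) =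
        Real.exp ((C0 + C1) * (1 + Real.log M)) * Real.exp (M * c8) / Real.exp (M * (2 * R)) := by
      rw [Real.exp_sub, Real.exp_add]
    rw [e, le_div_iff₀ (Real.exp_pos _), mul_comm]
    cases P
    · refine (b0 κ h0 h1 v hv).trans ?_
      gcongr
      linarith
    · refine (b1 κ h0 h1 v hv).trans ?_
      gcongr
      linarith
  · have hw : ∀ e : Bool, |w4 n h e M (κ - (n - 2))| ≤
        Real.exp ((C2 + C3) * (1 + Real.log M)) * Real.exp (M * (4 * R)) := by
      intro e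
      have e1 := w4C_yk hn hh hh' e h0 h1
      have e2 : |w4 n h e M (κ - (n - 2))| = ‖w4C n h e M ((yk 2 M κ : ℝ) : ℂ)‖ := by
        rw [e1, norm_real, Real.norm_eq_abs]
      rw [e2]
      cases e
      · have := b2 ((yk 2 M κ : ℝ) : ℂ) (by simpa using hy0) (by simpa using hy1)
        rw [ofReal_im, abs_zero, add_zero] at this
        refine this.trans ?_
        gcongr
        linarith
      · have := b3 ((yk 2 M κ : ℝ) : ℂ) (by simpa using hy0) (by simpa using hy1)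
        rw [ofReal_im, abs_zero, add_zero] at this
        refine this.trans ?_
        gcongr
        linarith
    intro e
    refine (mul_le_mul_of_nonneg_right (hw e) (by positivity)).trans (le_of_eq ?_)
    rw [← Real.exp_nat_mul, ← Real.exp_add, ← Real.exp_add, ← Real.exp_add]
    congr 1
    push_cast
    ring

end Pool.Agent.OR.UB
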