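import Pool.Agent.H63.VC8.QcLL8
import Pool.Agent.OR.UB.Slot
import Pool.Agent.S4.R.NodeA
import Pool.Agent.S4.R.NodeS

/-!
# Upper bounds for trees: all `M`, the factor of a node
-/

set_option autoImplicit false

namespace Pool.Agent.OR.UB

open Pool.Agent.H63.VC hiding ext
open Pool.Agent.H63.VC3 Pool.Agent.H25.RK Pool.Agent.S3
open Pool.Agent.S4
open Complex Filter Topology MeasureTheory

variable {n h : ℕ}

theorem S_abs_le (M k : ℕ) : |S M k| ≤ 2 ^ k := by
  unfold S
  rw [Finset.abs_prod]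
  calc _ ≤ ∏ _m ∈ Finset.Ico 1 (k + 1), (2 : ℝ) := by
        refine Finset.prod_le_prod (fun _ _ => abs_nonneg _) (fun j _ => ?_)
        unfold sg
        rw [abs_mul, abs_two]
        have := Real.abs_sin_le_one (Real.pi * j / M)
        linarith
    _ = _ := by
      rw [Finset.prod_const, Nat.card_Ico, Nat.add_sub_cancel]

/-- The weight of an edge and the factors of its slots, for all `M`. -/
theorem slot_all (hn : 2 ≤ n) (hh : 1 ≤ h) (hh' : 2 * h ≤ n) : ∃ C : ℝ, 0 < C ∧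
    ∀ M : ℕ, 1 ≤ M → ∀ κ : ℕ, n - 2 ≤ κ → κ < M → ∃ B : ℝ, 0 ≤ B ∧
      (∀ (P : Bool) (v : ℂ), |v.im| ≤ 1 / M → ‖q4 M (dd n h P) (M - 1 - κ) v‖ ≤ B) ∧
      ∀ e : Bool, |w4 n h e M (κ - (n - 2))| * B ^ 2 ≤
        Real.exp (C * (1 + Real.log M)) * Real.exp (2 * (M * c8)) := by
  obtain ⟨C, hC, hb⟩ := slot_bound hn hh hh'
  obtain ⟨M0, hM0⟩ := eventually_atTop.1 hb
  set K : ℝ := 4 * Real.cosh Real.pi ^ 2 with hK
  have hK1 : 1 ≤ K := by
    have := Real.one_le_cosh Real.pi
    nlinarith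
  have hlK : 0 ≤ Real.log K := Real.log_nonneg hK1
  have hl2 : 0 ≤ Real.log 2 := Real.log_nonneg (by norm_num)
  refine ⟨C + M0 * (4 * Real.log 2 + 2 * Real.log K), by positivity, ?_⟩
  intro M hM κ h0 h1
  have hMp : (0 : ℝ) < M := by exact_mod_cast hM
  have hlM : 0 ≤ Real.log M := Real.log_natCast_nonneg M
  rcases le_or_gt M0 M with h2 | h2
  · obtain ⟨B, hB0, hB1, hB2⟩ := hM0 M h2 κ h0 h1
    refine ⟨B, hB0, hB1, fun e => (hB2 e).trans ?_⟩
    gcongr
    have : 0 ≤ (M0 : ℝ) * (4 * Real.log 2 + 2 * Real.log K) := by positivity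
    linarith
  · refine ⟨K ^ M, by positivity, ?_, ?_⟩
    · intro P v hv
      refine (q4_crude hM _ _ v).trans ?_
      have h6 : Real.cosh (Real.pi * v.im) ≤ Real.cosh Real.pi := by
        rw [Real.cosh_le_cosh, abs_mul, abs_of_pos Real.pi_pos]
        have : |v.im| ≤ 1 := hv.trans (by
          rw [div_le_one hMp]
          exact_mod_cast hM)
        nlinarith [Real.pi_pos]
      have h7 := (Real.cosh_pos (Real.pi * v.im)).le
      calc (4 * Real.cosh (Real.pi * v.im) ^ 2) ^ (M - 1 - κ) ≤ K ^ (M - 1 - κ) := by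
            rw [hK]
            gcongr
        _ ≤ K ^ M := pow_le_pow_right₀ hK1 (by omega)
    · intro e
      have hS : ∀ k ≤ M, |S M k| ≤ 2 ^ M := fun k hk =>
        (S_abs_le M k).trans (pow_le_pow_right₀ (by norm_num) hk)
      have hw : |w4 n h e M (κ - (n - 2))| ≤ 2 ^ M * 2 ^ M * 2 ^ M * 2 ^ M := by
        unfold w4
        rw [abs_mul, abs_mul, abs_mul]
        gcongr
        · exact hS _ (by omega)
        · exact hS _ (by omega)
        · exact hS _ (by omega)
        · refine hS _ ?_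
          split_ifs <;> omega
      have h3 : (2 : ℝ) ^ M * 2 ^ M * 2 ^ M * 2 ^ M * (K ^ M) ^ 2 =
          Real.exp (M * (4 * Real.log 2 + 2 * Real.log K)) := by
        have e1 : (2 : ℝ) ^ M = Real.exp (M * Real.log 2) := by
          rw [mul_comm, Real.exp_mul, Real.exp_log (by norm_num), Real.rpow_natCast]
        have e2 : K ^ M = Real.exp (M * Real.log K) := by
          rw [mul_comm, Real.exp_mul, Real.exp_log (by linarith), Real.rpow_natCast]
        rw [e1, e2, ← Real.exp_nat_mul, ← Real.exp_add, ← Real.exp_add, ← Real.exp_add,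
          ← Real.exp_add]
        congr 1
        push_cast
        ring
      refine (mul_le_mul_of_nonneg_right hw (by positivity)).trans ?_
      rw [h3, ← Real.exp_add]
      apply Real.exp_le_exp.2
      have h4 : (M : ℝ) * (4 * Real.log 2 + 2 * Real.log K) ≤
          M0 * (4 * Real.log 2 + 2 * Real.log K) := by
        have : (M : ℝ) ≤ M0 := by exact_mod_cast h2.le
        gcongr
      have h5 : 0 ≤ 2 * ((M : ℝ) * c8) := by
        have := c8_pos
        positivity
      have h6 : 0 ≤ C + M0 * (4 * Real.log 2 + 2 * Real.log K) := by positivity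
      nlinarith

/-! ### The factor of a node -/

theorem NT4_diff {m : ℕ} (r : ℝ) (n h M : ℕ) (P : Bool) (s : ℕ) (A : Finset (Fin m))
    (k : Fin m → ℕ) : Differentiable ℂ (NT4 r n h M P s A k) := by
  cases P
  · exact R_NodeA_NT_diff r n h M s A k
  · exact R_NodeS_NT_diff r n h M s A k

theorem abs_vl_le {M X : ℕ} (hM : 1 ≤ M) (P : Bool) (hX : X < M + 2 - nn n P) (hn : 2 ≤ n) :
    |vl (nn n P) M X| ≤ 1 / 2 := by
  have hMp : (0 : ℝ) < M := by exact_mod_cast hM
  have h2 : 2 ≤ Pool.Agent.S4.nn n P := by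
    unfold Pool.Agent.S4.nn
    split_ifs <;> omega
  have hX' : (X : ℝ) + nn n P ≤ M + 1 := by exact_mod_cast (by omega : X + nn n P ≤ M + 1)
  have h2' : (2 : ℝ) ≤ nn n P := by exact_mod_cast h2
  have hX0 : (0 : ℝ) ≤ X := by positivity
  have h3 : ((X : ℝ) + bt (nn n P)) / M ≤ 1 := by
    rw [div_le_one hMp]
    unfold bt
    linarith
  have h4 : 0 ≤ ((X : ℝ) + bt (nn n P)) / M := by
    unfold bt
    have : 0 ≤ (X : ℝ) + ((nn n P : ℝ) - 1) / 2 := by linarith
    positivity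
  unfold vl
  rw [abs_le]
  constructor <;> linarith

private theorem exp_quad {r : ℝ} {M : ℕ} (hM : 1 ≤ M) {z : ℂ} (hre : |z.re| ≤ 3 / 2)
    (him : |z.im| ≤ 1 / (M * (1 + |r|))) :
    ‖exp (2 * Real.pi * I * r * M * z ^ 2)‖ ≤ Real.exp (6 * Real.pi) := by
  have hMp : (0 : ℝ) < M := by exact_mod_cast hM
  rw [Complex.norm_exp]
  apply Real.exp_le_exp.2
  have e : (2 * Real.pi * I * r * M * z ^ 2 : ℂ).re = -(4 * Real.pi * (r * M * (z.re * z.im))) := by
    rw [sq]
    simp
    ring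
  rw [e]
  have h1 : |r * M * (z.re * z.im)| ≤ 3 / 2 := by
    rw [abs_mul, abs_mul, abs_mul, abs_of_pos hMp]
    have h2 : |r| * M * |z.im| ≤ 1 := by
      calc |r| * M * |z.im| ≤ |r| * M * (1 / (M * (1 + |r|))) := by gcongr
        _ = |r| / (1 + |r|) := by
          field_simp
        _ ≤ 1 := by
          rw [div_le_one (by positivity)]
          linarith
    calc |r| * M * (|z.re| * |z.im|) = |z.re| * (|r| * M * |z.im|) := by ring
      _ ≤ 3 / 2 * 1 := by gcongr
      _ = _ := by ring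
  have h2 := (abs_le.1 h1).1
  nlinarith [Real.pi_pos]

private theorem norm_sin_le (z : ℂ) : ‖sin z‖ ≤ Real.cosh z.im := by
  have h := norm_cos_le (z - Real.pi / 2)
  rw [Complex.cos_sub_pi_div_two] at h
  have e : (z - (Real.pi : ℂ) / 2).im = z.im := by
    have : (Real.pi : ℂ) / 2 = ((Real.pi / 2 : ℝ) : ℂ) := by push_cast; ring
    rw [this]
    simp
  rwa [e] at h

theorem DG4_le (hn : 2 ≤ n) (hh : 1 ≤ h) (hh' : 2 * h ≤ n) : ∃ K : ℝ, 1 ≤ K ∧
    ∀ (m M : ℕ), 1 ≤ M → ∀ (r : ℝ) (P : Bool) (s : ℕ) (A : Finset (Fin m)) (k : Fin m → ℕ)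
      (B : Fin m → ℝ), (∀ j ∈ A, ∀ v : ℂ, |v.im| ≤ 1 / M →
        ‖q4 M (dd n h P) (M + 1 - n - k j) v‖ ≤ B j) →
      ‖DG4 r n h M P s A k‖ ≤ K ^ (s + 1) * (1 + |r|) * (M : ℝ) ^ 2 * ∏ j ∈ A, B j := by
  set c : ℝ := 2 * Real.cosh Real.pi with hc
  have hc1 : 1 ≤ c := by
    have := Real.one_le_cosh Real.pi
    linarith
  set L : ℝ := Real.exp (6 * Real.pi) * (2 * Real.cosh (2 * Real.pi)) with hL
  have hL1 : 1 ≤ L := by
    have h1 := Real.one_le_cosh (2 * Real.pi)
    have h2 : 1 ≤ Real.exp (6 * Real.pi) := Real.one_le_exp (by positivity)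
    nlinarith
  refine ⟨L * c ^ (2 * n), one_le_mul_of_one_le_of_one_le hL1 (one_le_pow₀ hc1), ?_⟩
  intro m M hM r P s A k B hB
  have hMp : (0 : ℝ) < M := by exact_mod_cast hM
  have hM1 : (1 : ℝ) ≤ M := by exact_mod_cast hM
  have hB0 : ∀ j ∈ A, 0 ≤ B j := fun j hj =>
    (norm_nonneg _).trans (hB j hj 0 (by simp))
  have hPB : 0 ≤ ∏ j ∈ A, B j := Finset.prod_nonneg hB0
  set R : ℝ := 1 / (M * (1 + |r|)) with hR
  have hR0 : 0 < R := by positivity
  have hR1 : R ≤ 1 / M := by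
    rw [hR]
    apply div_le_div_of_nonneg_left zero_le_one hMp
    have := abs_nonneg r
    nlinarith
  have hR2 : R ≤ 1 := hR1.trans (by
    rw [div_le_one hMp]
    exact hM1)
  -- the bound of the function
  have hf : ∀ z : ℂ, |z.re| ≤ 3 / 2 → |z.im| ≤ R →
      ‖NT4 r n h M P s A k z‖ ≤ (L * c ^ (2 * n)) ^ (s + 1) * ∏ j ∈ A, B j := by
    intro z hre him
    have him1 : |z.im| ≤ 1 := him.trans hR2
    have k1 : ‖exp (2 * Real.pi * I * r * M * z ^ 2)‖ ≤ Real.exp (6 * Real.pi) :=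
      exp_quad hM hre him
    have k2 : ‖(2 * sin (2 * Real.pi * z) : ℂ)‖ ≤ 2 * Real.cosh (2 * Real.pi) := by
      rw [norm_mul, norm_ofNat]
      have h1 := norm_sin_le (2 * Real.pi * z)
      have e : (2 * (Real.pi : ℂ) * z).im = 2 * Real.pi * z.im := by
        simp
      rw [e] at h1
      have h2 : Real.cosh (2 * Real.pi * z.im) ≤ Real.cosh (2 * Real.pi) := by
        rw [Real.cosh_le_cosh, abs_mul, abs_of_pos (by positivity : 0 < 2 * Real.pi)]
        nlinarith [Real.pi_pos]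
      linarith
    have kW : ∀ d : ℕ, ‖Wd M d z‖ ≤ c ^ d := by
      intro d
      refine (Wd_le M d z).trans ?_
      have h2 : Real.cosh (Real.pi * z.im) ≤ Real.cosh Real.pi := by
        rw [Real.cosh_le_cosh, abs_mul, abs_of_pos Real.pi_pos]
        nlinarith [Real.pi_pos]
      have h3 := (Real.cosh_pos (Real.pi * z.im)).le
      rw [hc]
      gcongr
    have k3 : ‖pre n h M P s z‖ ≤ (c ^ (2 * n)) ^ (s + 1) := by
      unfold pre
      split_ifs
      · rw [norm_mul]
        calc ‖Wd M (2 * h - 2) z‖ * ‖Wd M (2 * (n - h) - 2) z‖ ≤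
            c ^ (2 * h - 2) * c ^ (2 * (n - h) - 2) := by
              gcongr
              · exact kW _
              · exact kW _
          _ = c ^ ((2 * h - 2) + (2 * (n - h) - 2)) := by rw [pow_add]
          _ ≤ c ^ (2 * n * (s + 1)) := by
              apply pow_le_pow_right₀ hc1
              have : 2 * n ≤ 2 * n * (s + 1) := Nat.le_mul_of_pos_right _ (by omega)
              omega
          _ = _ := by rw [pow_mul]
      · rw [norm_mul, norm_pow, norm_pow]
        calc ‖Wd M (n - 2) z‖ ^ 2 * ‖Wd M (n - 2 * h) z‖ ^ s ≤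
            (c ^ (n - 2)) ^ 2 * (c ^ (n - 2 * h)) ^ s := by
              gcongr
              · exact kW _
              · exact kW _
          _ = c ^ ((n - 2) * 2 + (n - 2 * h) * s) := by rw [pow_add, pow_mul, pow_mul]
          _ ≤ c ^ (2 * n * (s + 1)) := by
              apply pow_le_pow_right₀ hc1
              have h5 : (n - 2 * h) * s ≤ 2 * n * s := Nat.mul_le_mul_right s (by omega)
              have h6 : 2 * n * (s + 1) = 2 * n * s + 2 * n := by ring
              omega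
          _ = _ := by rw [pow_mul]
    have k4 : ‖∏ j ∈ A, q4 M (dd n h P) (M + 1 - n - k j) z‖ ≤ ∏ j ∈ A, B j := by
      rw [_root_.norm_prod]
      exact Finset.prod_le_prod (fun _ _ => norm_nonneg _) fun j hj =>
        hB j hj z (him.trans hR1)
    unfold NT4
    rw [norm_mul, norm_mul, norm_mul]
    have hL2 : L ≤ L ^ (s + 1) := by
      calc L = L ^ 1 := (pow_one L).symm
        _ ≤ _ := pow_le_pow_right₀ hL1 (by omega)
    calc ‖exp (2 * Real.pi * I * r * M * z ^ 2)‖ * ‖(2 * sin (2 * Real.pi * z) : ℂ)‖ *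
          ‖pre n h M P s z‖ * ‖∏ j ∈ A, q4 M (dd n h P) (M + 1 - n - k j) z‖
        ≤ Real.exp (6 * Real.pi) * (2 * Real.cosh (2 * Real.pi)) * (c ^ (2 * n)) ^ (s + 1) *
          ∏ j ∈ A, B j := by
          gcongr
      _ ≤ L ^ (s + 1) * (c ^ (2 * n)) ^ (s + 1) * ∏ j ∈ A, B j := by
          gcongr
      _ = _ := by rw [← mul_pow]
  -- the derivatives
  have hd : ∀ X ∈ Finset.range (M + 2 - nn n P),
      ‖deriv (NT4 r n h M P s A k) ((vl (nn n P) M X : ℝ) : ℂ)‖ ≤
        (L * c ^ (2 * n)) ^ (s + 1) * (∏ j ∈ A, B j) / R := by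
    intro X hX
    have hX' := Finset.mem_range.1 hX
    have hv := abs_vl_le hM P hX' hn
    refine Complex.norm_deriv_le_of_forall_mem_sphere_norm_le hR0
      (NT4_diff r n h M P s A k).diffContOnCl ?_
    intro z hz
    rw [mem_sphere_iff_norm] at hz
    have h1 : |(z - ((vl (nn n P) M X : ℝ) : ℂ)).re| ≤ R :=
      (Complex.abs_re_le_norm _).trans hz.le
    have h2 : |(z - ((vl (nn n P) M X : ℝ) : ℂ)).im| ≤ R :=
      (Complex.abs_im_le_norm _).trans hz.le
    rw [sub_re, ofReal_re] at h1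
    rw [sub_im, ofReal_im, sub_zero] at h2
    refine hf z ?_ h2
    have h3 : |z.re| ≤ |z.re - vl (nn n P) M X| + |vl (nn n P) M X| := by
      have := abs_add_le (z.re - vl (nn n P) M X) (vl (nn n P) M X)
      rwa [sub_add_cancel] at this
    linarith
  unfold DG4
  refine (norm_sum_le_of_le _ hd).trans ?_
  rw [Finset.sum_const, Finset.card_range, nsmul_eq_mul]
  have h2 : 2 ≤ Pool.Agent.S4.nn n P := by
    unfold Pool.Agent.S4.nn
    split_ifs <;> omega
  have h3 : ((M + 2 - nn n P : ℕ) : ℝ) ≤ M := by exact_mod_cast (by omega : M + 2 - nn n P ≤ M)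
  have hK0 : 0 ≤ (L * c ^ (2 * n)) ^ (s + 1) := by positivity
  calc ((M + 2 - nn n P : ℕ) : ℝ) * ((L * c ^ (2 * n)) ^ (s + 1) * (∏ j ∈ A, B j) / R) ≤
        M * ((L * c ^ (2 * n)) ^ (s + 1) * (∏ j ∈ A, B j) / R) := by
        gcongr
    _ = _ := by
      rw [hR]
      field_simp

end Pool.Agent.OR.UB
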