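import Pool.Agent.OR.UB.Node
import Pool.Agent.OR.G.Defs

/-!
# Upper bounds for trees: the sum at the root of unity
-/

set_option autoImplicit false

namespace Pool.Agent.OR.UB

open Pool.Agent.AT (Tr)
open Pool.Agent.AT.SU (ie)
open Pool.Agent.AT.SU.OR (sn et JG4)
open Pool.Agent.H63.VC7 (inc prod_inc_real)
open Pool.Agent.S4 (DG4 q4 w4 dd)
open Complex Filter Topology

variable {n h : ℕ}

theorem pow_exp {x : ℝ} (hx : 0 < x) (k : ℕ) : x ^ k = Real.exp (k * Real.log x) := by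
  rw [Real.exp_nat_mul, Real.exp_log hx]

theorem JG4_le (hn : 2 ≤ n) (hh : 1 ≤ h) (hh' : 2 * h ≤ n) : ∃ C : ℝ, 0 < C ∧
    ∀ (m : ℕ) [Tr m] (P : Fin (m + 1) → Bool) (r : Fin (m + 1) → ℝ) (M : ℕ), 1 ≤ M →
      ‖JG4 P r n h M‖ ≤ Real.exp (C * (1 + Real.log M) * (m + 1)) * (∏ i, (1 + |r i|)) *
        Real.exp (2 * m * (M * c8)) := by
  obtain ⟨C, hC, hS⟩ := slot_all hn hh hh'
  obtain ⟨K, hK, hD⟩ := DG4_le hn hh hh'
  have hlK : 0 ≤ Real.log K := Real.log_nonneg hK
  refine ⟨C + 3 + 3 * Real.log K, by positivity, ?_⟩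
  intro m _ P r M hM
  have hMp : (0 : ℝ) < M := by exact_mod_cast hM
  have hM1 : (1 : ℝ) ≤ M := by exact_mod_cast hM
  have hlM : 0 ≤ Real.log M := Real.log_natCast_nonneg M
  have hK0 : (0 : ℝ) < K := by linarith
  set E := Real.exp (C * (1 + Real.log M)) * Real.exp (2 * (M * c8)) with hE
  have hE0 : 0 < E := by positivity
  set Q := ∏ i, (1 + |r i|) with hQ
  have hQ0 : 0 ≤ Q := Finset.prod_nonneg fun i _ => by positivity
  -- a term
  have hterm : ∀ k ∈ Fintype.piFinset (fun _ : Fin m => Finset.range (M + 2 - n)),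
      ‖(∏ j, (w4 n h (et P j) M (k j) : ℂ)) * ∏ i, DG4 (r i) n h M (P i) (sn P i) (ie i) k‖ ≤
        K ^ (m + 1) * ((M : ℝ) ^ 2) ^ (m + 1) * Q * (K ^ 2) ^ m * E ^ m := by
    intro k hk
    rw [Fintype.mem_piFinset] at hk
    have hk' : ∀ j, k j < M + 2 - n := fun j => Finset.mem_range.1 (hk j)
    have hB : ∀ j : Fin m, ∃ B : ℝ, 0 ≤ B ∧
        (∀ (P : Bool) (v : ℂ), |v.im| ≤ 1 / M → ‖q4 M (dd n h P) (M + 1 - n - k j) v‖ ≤ B) ∧
        ∀ e : Bool, |w4 n h e M (k j)| * B ^ 2 ≤ E := by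
      intro j
      have h1 := hk' j
      obtain ⟨B, hB0, hB1, hB2⟩ := hS M hM (k j + (n - 2)) (by omega) (by omega)
      rw [show M - 1 - (k j + (n - 2)) = M + 1 - n - k j by omega] at hB1
      rw [Nat.add_sub_cancel] at hB2
      exact ⟨B, hB0, hB1, hB2⟩
    choose B hB0 hB1 hB2 using hB
    have hnode : ∀ i, ‖DG4 (r i) n h M (P i) (sn P i) (ie i) k‖ ≤
        K * (1 + |r i|) * (M : ℝ) ^ 2 * ∏ j ∈ ie i, (K * B j) := by
      intro i
      refine (hD m M hM (r i) (P i) (sn P i) (ie i) k B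
        (fun j _ v hv => hB1 j (P i) v hv)).trans ?_
      rw [Finset.prod_mul_distrib, Finset.prod_const]
      have h1 : sn P i ≤ (ie i).card := Finset.card_filter_le _ _
      have h2 : K ^ (sn P i + 1) ≤ K * K ^ (ie i).card := by
        rw [pow_succ, mul_comm]
        gcongr
      have h3 : 0 ≤ ∏ j ∈ ie i, B j := Finset.prod_nonneg fun j _ => hB0 j
      calc K ^ (sn P i + 1) * (1 + |r i|) * (M : ℝ) ^ 2 * ∏ j ∈ ie i, B j ≤
          (K * K ^ (ie i).card) * (1 + |r i|) * (M : ℝ) ^ 2 * ∏ j ∈ ie i, B j := by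
            gcongr
        _ = _ := by ring
    rw [norm_mul, _root_.norm_prod, _root_.norm_prod]
    have h1 : ∏ i, ‖DG4 (r i) n h M (P i) (sn P i) (ie i) k‖ ≤
        K ^ (m + 1) * ((M : ℝ) ^ 2) ^ (m + 1) * Q * ∏ j : Fin m, (K * B j * (K * B j)) := by
      refine (Finset.prod_le_prod (fun i _ => norm_nonneg _) fun i _ => hnode i).trans
        (le_of_eq ?_)
      rw [Finset.prod_mul_distrib, Finset.prod_mul_distrib, Finset.prod_mul_distrib,
        Finset.prod_const, Finset.prod_const, Finset.card_univ, Fintype.card_fin]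
      have h2 : ∏ i, ∏ j ∈ ie i, (K * B j) = ∏ j : Fin m, (K * B j * (K * B j)) :=
        prod_inc_real (Tr.par (m := m)) Fin.succ (fun j => Tr.ne j) (fun _ j => K * B j)
      rw [h2]
      ring
    have h2 : (∏ j, ‖(w4 n h (et P j) M (k j) : ℂ)‖) * ∏ j : Fin m, (K * B j * (K * B j)) ≤
        (K ^ 2) ^ m * E ^ m := by
      rw [← Finset.prod_mul_distrib]
      calc _ ≤ ∏ _j : Fin m, (K ^ 2 * E) := by
            refine Finset.prod_le_prod (fun j _ => ?_) fun j _ => ?_
            · have := hB0 j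
              positivity
            · rw [norm_real, Real.norm_eq_abs]
              have h3 := hB2 j (et P j)
              calc |w4 n h (et P j) M (k j)| * (K * B j * (K * B j)) =
                  K ^ 2 * (|w4 n h (et P j) M (k j)| * B j ^ 2) := by ring
                _ ≤ _ := by gcongr
        _ = _ := by
          rw [Finset.prod_const, Finset.card_univ, Fintype.card_fin, mul_pow]
    calc (∏ j, ‖(w4 n h (et P j) M (k j) : ℂ)‖) *
        ∏ i, ‖DG4 (r i) n h M (P i) (sn P i) (ie i) k‖ ≤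
        (∏ j, ‖(w4 n h (et P j) M (k j) : ℂ)‖) * (K ^ (m + 1) * ((M : ℝ) ^ 2) ^ (m + 1) * Q *
          ∏ j : Fin m, (K * B j * (K * B j))) := by
          gcongr
      _ = (K ^ (m + 1) * ((M : ℝ) ^ 2) ^ (m + 1) * Q) *
          ((∏ j, ‖(w4 n h (et P j) M (k j) : ℂ)‖) * ∏ j : Fin m, (K * B j * (K * B j))) := by ring
      _ ≤ (K ^ (m + 1) * ((M : ℝ) ^ 2) ^ (m + 1) * Q) * ((K ^ 2) ^ m * E ^ m) := by
          gcongr
      _ = _ := by ring
  unfold JG4
  refine (norm_sum_le_of_le _ hterm).trans ?_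
  rw [Finset.sum_const, Fintype.card_piFinset, Finset.prod_const, Finset.card_univ,
    Fintype.card_fin, Finset.card_range, nsmul_eq_mul]
  have hc : (((M + 2 - n) ^ m : ℕ) : ℝ) ≤ (M : ℝ) ^ m := by
    push_cast
    have : ((M + 2 - n : ℕ) : ℝ) ≤ M := by exact_mod_cast (by omega : M + 2 - n ≤ M)
    gcongr
  have eM : (M : ℝ) = Real.exp (Real.log M) := (Real.exp_log hMp).symm
  have eK : K = Real.exp (Real.log K) := (Real.exp_log hK0).symm
  calc (((M + 2 - n) ^ m : ℕ) : ℝ) *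
      (K ^ (m + 1) * ((M : ℝ) ^ 2) ^ (m + 1) * Q * (K ^ 2) ^ m * E ^ m) ≤
      (M : ℝ) ^ m * (K ^ (m + 1) * ((M : ℝ) ^ 2) ^ (m + 1) * Q * (K ^ 2) ^ m * E ^ m) := by
        gcongr
    _ = K ^ (3 * m + 1) * (M : ℝ) ^ (3 * m + 2) * (Real.exp (C * (1 + Real.log M))) ^ m * Q *
        (Real.exp (2 * (M * c8))) ^ m := by
        rw [hE]
        ring
    _ ≤ Real.exp ((C + 3 + 3 * Real.log K) * (1 + Real.log M) * (m + 1)) * Q *
        (Real.exp (2 * (M * c8))) ^ m := by
        have h1 : K ^ (3 * m + 1) * (M : ℝ) ^ (3 * m + 2) *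
            (Real.exp (C * (1 + Real.log M))) ^ m ≤
            Real.exp ((C + 3 + 3 * Real.log K) * (1 + Real.log M) * (m + 1)) := by
          have e1 : K ^ (3 * m + 1) = Real.exp ((3 * m + 1) * Real.log K) := by
            rw [pow_exp hK0]
            push_cast
            rfl
          have e2 : (M : ℝ) ^ (3 * m + 2) = Real.exp ((3 * m + 2) * Real.log M) := by
            rw [pow_exp hMp]
            push_cast
            rfl
          rw [e1, e2, ← Real.exp_nat_mul, ← Real.exp_add, ← Real.exp_add]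
          apply Real.exp_le_exp.2
          have hm0 : (0 : ℝ) ≤ m := by positivity
          have k1 : (3 * (m : ℝ) + 1) * Real.log K ≤
              3 * Real.log K * (1 + Real.log M) * (m + 1) := by
            have : 0 ≤ Real.log K * ((m : ℝ) + 1) * Real.log M := by positivity
            nlinarith
          have k2 : (3 * (m : ℝ) + 2) * Real.log M ≤ 3 * (1 + Real.log M) * (m + 1) := by
            nlinarith
          have k3 : (m : ℝ) * (C * (1 + Real.log M)) ≤ C * (1 + Real.log M) * (m + 1) := by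
            have : 0 ≤ C * (1 + Real.log M) := by positivity
            nlinarith
          nlinarith
        gcongr
    _ = _ := by
        rw [← Real.exp_nat_mul, show (m : ℝ) * (2 * (M * c8)) = 2 * m * (M * c8) by ring]

end Pool.Agent.OR.UB
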